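import Pool.Agent.Y128.CY.Stm

/-!
# Reflections act on the eigenspaces as complex reflections, arbitrary degree
-/

set_option autoImplicit false

namespace Pool.Agent.Y907.CY

open Module TensorProduct Polynomial Pool.Agent.H204R3.GP Pool.Agent.H204R3.SP
  Pool.Agent.W522.U Pool.Agent.Y128.SJ Pool.Agent.Y128.CY

section

variable {Ω : Type} [Field Ω] {X : Type} [AddCommGroup X] [Module Ω X]

theorem adj_comm {S T P : Module.End Ω X} (hP : P ∈ Algebra.adjoin Ω {S}) (hT : T * S = S * T)
    (x : X) : P (T x) = T (P x) := by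
  have h1 : P ∈ Subalgebra.centralizer Ω {T} := by
    refine Algebra.adjoin_le ?_ hP
    intro y hy
    rw [Set.mem_singleton_iff] at hy
    subst hy
    rw [SetLike.mem_coe, Subalgebra.mem_centralizer_iff]
    intro g hg
    rw [Set.mem_singleton_iff] at hg
    subst hg
    exact hT
  rw [Subalgebra.mem_centralizer_iff] at h1
  have h2 := h1 T rfl
  exact (congrArg (fun f : Module.End Ω X => f x) h2).symm

theorem aeval_eig {S : Module.End Ω X} {μ : Ω} {x : X} (hx : x ∈ Module.End.eigenspace S μ)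
    (f : Polynomial Ω) : aeval S f x = f.eval μ • x := by
  by_cases h0 : x = 0
  · rw [h0, map_zero, smul_zero]
  · exact Module.End.aeval_apply_of_hasEigenvector ⟨hx, h0⟩

end

section

variable {k : Type} [Field k] {V : Type} [AddCommGroup V] [Module k V]

theorem bcp (Ω : Type) [Field Ω] [Algebra k Ω] (σ : Module.End k V) (i : ℕ) :
    (σ.baseChange Ω) ^ i = (σ ^ i).baseChange Ω := by
  induction i with
  | zero =>
    rw [pow_zero, pow_zero]
    exact (LinearMap.baseChange_id).symm
  | succ i ih =>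
    rw [pow_succ, pow_succ, ih]
    exact (LinearMap.baseChange_comp _ _).symm

/-- The components of `1 ⊗ v` do not vanish. -/
theorem cmp_ne {Ω : Type} [Field Ω] [Algebra k Ω] {n : ℕ} [NeZero n] {σ : Module.End k V} {v : V}
    (hv : LinearIndependent k (fun j : Fin n.totient => (σ ^ (j : ℕ)) v)) {z₀ : Ω}
    {P : (ZMod n)ˣ → Module.End Ω (Ω ⊗[k] V)}
    (hPadj : ∀ j, P j ∈ Algebra.adjoin Ω {σ.baseChange Ω})
    (hPmem : ∀ j x, P j x ∈ Module.End.eigenspace (σ.baseChange Ω) (evn z₀ j))
    (hsum : ∑ j, P j = 1) (j : (ZMod n)ˣ) : P j ((1 : Ω) ⊗ₜ[k] v) ≠ 0 := by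
  classical
  intro h0
  set S := σ.baseChange Ω with hS
  set v' := (1 : Ω) ⊗ₜ[k] v with hv'
  let f : Polynomial Ω := ∏ i ∈ Finset.univ.erase j, (X - C (evn z₀ i))
  have hfm : f.Monic := monic_prod_X_sub_C _ _
  have hn0 : 0 < n.totient := Nat.totient_pos.2 (NeZero.pos n)
  have hfd : f.natDegree = n.totient - 1 := by
    change (∏ i ∈ Finset.univ.erase j, (X - C (evn z₀ i))).natDegree = _
    rw [natDegree_finsetProd_X_sub_C_eq_card, Finset.card_erase_of_mem (Finset.mem_univ _), Finset.card_univ,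
      ZMod.card_units_eq_totient]
  have h1 : aeval S f v' = 0 := by
    have h2 : aeval S f v' = ∑ i, P i (aeval S f v') := by
      rw [← LinearMap.sum_apply, hsum]
      rfl
    rw [h2]
    refine Finset.sum_eq_zero fun i _ => ?_
    rw [adj_comm (hPadj i) (T := aeval S f) ?_ v']
    · rw [aeval_eig (hPmem i v')]
      by_cases hij : i = j
      · rw [hij, h0, smul_zero]
      · have h3 : f.eval (evn z₀ i) = 0 := by
          change (∏ i ∈ Finset.univ.erase j, (X - C (evn z₀ i))).eval _ = 0
          rw [eval_prod]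
          refine Finset.prod_eq_zero (Finset.mem_erase.2 ⟨hij, Finset.mem_univ i⟩) ?_
          rw [eval_sub, eval_X, eval_C, sub_self]
        rw [h3, zero_smul]
    · have h4 : aeval S f * aeval S (X : Polynomial Ω) = aeval S (X : Polynomial Ω) * aeval S f := by
        rw [← map_mul, ← map_mul, mul_comm]
      rwa [aeval_X] at h4
  have hind : LinearIndependent Ω (fun j : Fin n.totient => (1 : Ω) ⊗ₜ[k] (σ ^ (j : ℕ)) v) :=
    Module.Flat.linearIndependent_one_tmul hv
  have h5 : aeval S f v' = ∑ l ∈ Finset.range n.totient, f.coeff l • ((S ^ l) v') := by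
    rw [aeval_eq_sum_range' (n := n.totient) (by rw [hfd]; omega), LinearMap.sum_apply]
    rfl
  rw [h5, ← Fin.sum_univ_eq_sum_range (fun l => f.coeff l • ((S ^ l) v'))] at h1
  have h6 := Fintype.linearIndependent_iff.1 hind (fun i => f.coeff (i : ℕ)) (by
    rw [← h1]
    refine Finset.sum_congr rfl fun i _ => ?_
    rw [hS, bcp, hv', LinearMap.baseChange_tmul]) ⟨n.totient - 1, by omega⟩
  have h7 : f.coeff (n.totient - 1) = 1 := by
    rw [← hfd]
    exact hfm
  exact one_ne_zero (h7.symm.trans h6)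

end

theorem evn_prim {Ω : Type} [Field Ω] {n : ℕ} {z₀ : Ω} (hz₀ : IsPrimitiveRoot z₀ n)
    (j : (ZMod n)ˣ) : IsPrimitiveRoot (evn z₀ j) n :=
  hz₀.pow_of_coprime _ (ZMod.val_coe_unit_coprime j)

/-- **Reflections act on the eigenspaces as complex reflections.** -/
theorem t_REF : S_EIG → S_REF := by
  intro hE k _ _ V _ _ _ Ω _ _ _ n hn σ g hσ hg hcomm z₀ hz₀
  have : NeZero n := ⟨by omega⟩
  obtain ⟨v, hv, ⟨i, hi, hgv⟩, hsub⟩ := hg
  obtain ⟨c, hc, hgv⟩ : ∃ c : k, (c = 1 ∨ c = -1) ∧ g v = c • (σ ^ i) v := by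
    rcases hgv with h | h
    · exact ⟨1, Or.inl rfl, by rw [h, one_smul]⟩
    · exact ⟨-1, Or.inr rfl, by rw [h, neg_one_smul]⟩
  set S := σ.baseChange Ω with hS
  set G := g.baseChange Ω with hG
  set v' := (1 : Ω) ⊗ₜ[k] v with hv'
  have hS0 : aeval S (cyclotomic n Ω) = 0 := by
    have h4 : aeval S ((cyclotomic n k).map (algebraMap k Ω)) = 0 := by
      rw [aeval_map_algebraMap]
      have h5 : aeval (Module.End.baseChangeHom k Ω V σ) (cyclotomic n k) =
          Module.End.baseChangeHom k Ω V (aeval σ (cyclotomic n k)) := aeval_algHom_apply _ _ _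
      rw [hσ, map_zero] at h5
      exact h5
    rwa [map_cyclotomic] at h4
  obtain ⟨P, hPadj, hPmem, hPid, hPz, hPsum⟩ := hE Ω (Ω ⊗[k] V) n S z₀ hz₀ hS0
  have hGS : G * S = S * G := by
    have h1 : (g * σ).baseChange Ω = G * S := LinearMap.baseChange_comp _ _
    have h2 : (σ * g).baseChange Ω = S * G := LinearMap.baseChange_comp _ _
    rw [← h1, ← h2, hcomm]
  obtain ⟨c', hc', hcc⟩ : ∃ c' : Ω, (c' = 1 ∨ c' = -1) ∧ c' = algebraMap k Ω c := by
    refine ⟨_, ?_, rfl⟩
    rcases hc with h | h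
    · left; rw [h, map_one]
    · right; rw [h, map_neg, map_one]
  have hw : ∀ j : (ZMod n)ˣ, IsPrimitiveRoot (evn z₀ j ^ i) n := fun j =>
    (evn_prim hz₀ j).pow_of_coprime i hi
  have hw1 : ∀ j : (ZMod n)ˣ, evn z₀ j ^ i ≠ 1 := fun j => (hw j).ne_one (by omega)
  have hwp : ∀ j : (ZMod n)ˣ, (evn z₀ j ^ i) ^ n = 1 := fun j => (hw j).pow_eq_one
  have hw2 : ∀ j : (ZMod n)ˣ, evn z₀ j ^ i ≠ -1 := by
    intro j h
    have h1 := (hw j).dvd_of_pow_eq_one 2 (by rw [h]; norm_num)
    have h2 := Nat.le_of_dvd (by norm_num) h1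
    omega
  have hcp : c' ^ 2 = 1 := by
    rcases hc' with h | h <;> rw [h] <;> norm_num
  refine ⟨fun j => c' * evn z₀ j ^ i, fun j => ?_, fun j => ⟨?_, ?_, ?_⟩, fun j j' h => ?_⟩
  · have hε : c' * evn z₀ j ^ i ≠ 1 := by
      rcases hc' with h | h
      · rw [h, one_mul]; exact hw1 j
      · rw [h, neg_one_mul]
        intro h1
        exact hw2 j (by rw [← h1, neg_neg])
    have hd0 : P j v' ≠ 0 := cmp_ne hv hPadj hPmem hPsum j
    set d := P j v' with hd
    have hdE : d ∈ Module.End.eigenspace S (evn z₀ j) := hPmem j v'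
    have hSd : ∀ l : ℕ, (S ^ l) d = evn z₀ j ^ l • d := by
      intro l
      induction l with
      | zero => rw [pow_zero, pow_zero, one_smul]; rfl
      | succ l ih =>
        rw [pow_succ', Module.End.mul_apply, ih, map_smul, Module.End.mem_eigenspace_iff.1 hdE,
          smul_smul, ← pow_succ]
    have hpS : ∀ l : ℕ, P j ((S ^ l) v') = evn z₀ j ^ l • d := by
      intro l
      rw [adj_comm (hPadj j) (T := S ^ l) (by rw [← pow_succ, ← pow_succ']), hSd]
    have hGd : G d = (c' * evn z₀ j ^ i) • d := by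
      rw [hd, ← adj_comm (hPadj j) hGS]
      have h1 : G v' = c' • (S ^ i) v' := by
        rw [hG, hv', LinearMap.baseChange_tmul, hgv, hS, bcp, LinearMap.baseChange_tmul, hcc,
          TensorProduct.tmul_smul, algebraMap_smul]
      rw [h1, map_smul, hpS, smul_smul]
    have hM : ∀ u, G u - u ∈ Submodule.span Ω (Set.range fun l : ℕ => (S ^ l) v') := by
      intro u
      induction u using TensorProduct.induction_on with
      | zero => rw [map_zero, sub_zero]; exact Submodule.zero_mem _
      | tmul a x =>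
        have h1 : G (a ⊗ₜ[k] x) - a ⊗ₜ[k] x = a • ((1 : Ω) ⊗ₜ[k] (g x - x)) := by
          rw [hG, LinearMap.baseChange_tmul, TensorProduct.smul_tmul', smul_eq_mul, mul_one,
            TensorProduct.tmul_sub]
        rw [h1]
        refine Submodule.smul_mem _ _ ?_
        have h2 := hsub x
        generalize g x - x = y at h2
        induction h2 using Submodule.span_induction with
        | mem y hy =>
          obtain ⟨l, rfl⟩ := hy
          refine Submodule.subset_span ⟨l, ?_⟩
          change (S ^ l) v' = _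
          rw [hS, bcp, hv', LinearMap.baseChange_tmul]
        | zero => rw [TensorProduct.tmul_zero]; exact Submodule.zero_mem _
        | add y y' _ _ h h' => rw [TensorProduct.tmul_add]; exact Submodule.add_mem _ h h'
        | smul b y _ h =>
          rw [TensorProduct.tmul_smul, ← algebraMap_smul Ω b]
          exact Submodule.smul_mem _ _ h
      | add y y' h h' =>
        rw [map_add, add_sub_add_comm]
        exact Submodule.add_mem _ h h'
    have hline : ∀ u ∈ Module.End.eigenspace S (evn z₀ j), ∃ t : Ω, G u - u = t • d := by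
      intro u hu
      have h1 : ∀ y ∈ Submodule.span Ω (Set.range fun l : ℕ => (S ^ l) v'),
          ∃ t : Ω, P j y = t • d := by
        intro y hy
        induction hy using Submodule.span_induction with
        | mem y hy =>
          obtain ⟨l, rfl⟩ := hy
          exact ⟨_, hpS l⟩
        | zero => exact ⟨0, by rw [map_zero, zero_smul]⟩
        | add y y' _ _ h h' =>
          obtain ⟨t, ht⟩ := h
          obtain ⟨t', ht'⟩ := h'
          exact ⟨t + t', by rw [map_add, ht, ht', add_smul]⟩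
        | smul b y _ h =>
          obtain ⟨t, ht⟩ := h
          exact ⟨b * t, by rw [map_smul, ht, smul_smul]⟩
      obtain ⟨t, ht⟩ := h1 _ (hM u)
      have hGu : G u ∈ Module.End.eigenspace S (evn z₀ j) := by
        rw [Module.End.mem_eigenspace_iff] at hu ⊢
        have h2 := congrArg (fun f : Module.End Ω (Ω ⊗[k] V) => f u) hGS
        change G (S u) = S (G u) at h2
        rw [← h2, hu, map_smul]
      rw [hPid j _ (Submodule.sub_mem _ hGu hu)] at ht
      exact ⟨t, ht⟩
    obtain ⟨lam, hlam⟩ : ∃ lam : (Ω ⊗[k] V) →ₗ[Ω] Ω, lam d = 1 := by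
      obtain ⟨f, hf⟩ : ∃ f : Module.Dual Ω (Ω ⊗[k] V), f d ≠ 0 := by
        by_contra h
        push Not at h
        exact hd0 ((Module.forall_dual_apply_eq_zero_iff Ω d).1 h)
      exact ⟨(f d)⁻¹ • f, by rw [LinearMap.smul_apply, smul_eq_mul, inv_mul_cancel₀ hf]⟩
    have hε' : c' * evn z₀ j ^ i - 1 ≠ 0 := sub_ne_zero.2 hε
    refine ⟨d, (c' * evn z₀ j ^ i - 1)⁻¹ • lam.comp (G - LinearMap.id), hdE, ?_, fun u hu => ?_⟩
    · rw [LinearMap.smul_apply, LinearMap.comp_apply, LinearMap.sub_apply, LinearMap.id_apply, hGd,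
        map_sub, map_smul, hlam, smul_eq_mul, smul_eq_mul, mul_one]
      exact inv_mul_cancel₀ hε'
    · obtain ⟨t, ht⟩ := hline u hu
      rw [LinearMap.smul_apply, LinearMap.comp_apply, LinearMap.sub_apply, LinearMap.id_apply, ht,
        map_smul, hlam, smul_eq_mul, smul_eq_mul, mul_one, mul_inv_cancel_left₀ hε', ← ht,
        add_sub_cancel]
  · change (c' * evn z₀ j ^ i) ^ (2 * n) = 1
    rw [mul_pow, pow_mul, hcp, one_pow, one_mul, mul_comm 2 n, pow_mul, hwp, one_pow]
  · change c' * evn z₀ j ^ i ≠ 1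
    rcases hc' with h | h
    · rw [h, one_mul]; exact hw1 j
    · rw [h, neg_one_mul]
      intro h1
      exact hw2 j (by rw [← h1, neg_neg])
  · change c' * evn z₀ j ^ i ≠ -1
    rcases hc' with h | h
    · rw [h, one_mul]; exact hw2 j
    · rw [h, neg_one_mul]
      intro h1
      exact hw1 j (neg_injective h1)
  · have h1 : evn z₀ j ^ i = evn z₀ j' ^ i := by
      have hc0 : c' ≠ 0 := by
        rintro rfl
        rw [zero_pow two_ne_zero] at hcp
        exact zero_ne_one hcp
      exact mul_left_cancel₀ hc0 h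
    have he : ∀ a : ℕ, z₀ ^ (a % n) = z₀ ^ a := fun a => by
      rw [hz₀.eq_orderOf]
      exact pow_mod_orderOf z₀ a
    rw [evn, evn, ← pow_mul, ← pow_mul, ← he, ← he (_ * i)] at h1
    have hm : (j : ZMod n).val * i ≡ (j' : ZMod n).val * i [MOD n] :=
      hz₀.pow_inj (Nat.mod_lt _ (by omega)) (Nat.mod_lt _ (by omega)) h1
    have h2 := Nat.ModEq.cancel_right_of_coprime (c := i) (by rw [Nat.gcd_comm]; exact hi) hm
    have h3 : (j : ZMod n).val = (j' : ZMod n).val := by
      rw [Nat.ModEq, Nat.mod_eq_of_lt (ZMod.val_lt _), Nat.mod_eq_of_lt (ZMod.val_lt _)] at h2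
      exact h2
    exact Units.ext (ZMod.val_injective n h3)

end Pool.Agent.Y907.CY
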